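import Pool.Agent.Helper79.GL4.GoalsB

/-!
# GL4: null polarities come from alternating forms (packet NPOL)
-/

set_option linter.unusedVariables false

namespace Pool.Agent.Helper63.GL4NPOL

open Module Submodule GL4

theorem npol : GL4.NPOL := by
  intro F _ V _ _ _ B hB hS
  by_cases hV : ∃ u0 : V, u0 ≠ 0
  swap
  · push Not at hV
    exact ⟨0, fun x => by simp, fun x hx => absurd (hV x) hx⟩
  obtain ⟨u0, hu0⟩ := hV
  -- vector forms of the hypotheses
  have selfB : ∀ v : V, v ≠ 0 → v ∈ B (F ∙ v) := fun v hv =>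
    (hB _ (pt_span hv)).2 (mem_span_singleton_self v)
  have symB : ∀ u v : V, u ≠ 0 → v ≠ 0 → v ∈ B (F ∙ u) → u ∈ B (F ∙ v) := by
    intro u v hu hv h
    have := hS _ _ (pt_span hu) (pt_span hv) (by rwa [span_singleton_le_iff_mem])
    rwa [span_singleton_le_iff_mem] at this
  have key : ∀ x y z : V, x ≠ 0 → y ≠ 0 → z ≠ 0 → (∃ a b : F, z = a • x + b • y) →
      ∀ t, t ∈ B (F ∙ x) → t ∈ B (F ∙ y) → t ∈ B (F ∙ z) := by
    rintro x y z hx hy hz ⟨a, b, hab⟩ t h1 h2
    by_cases ht : t = 0
    · rw [ht]; exact zero_mem _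
    have h3 := symB x t hx ht h1
    have h4 := symB y t hy ht h2
    apply symB t z ht hz
    rw [hab]
    exact add_mem (smul_mem _ _ h3) (smul_mem _ _ h4)
  obtain ⟨f0, hf0, hk0⟩ := (hB _ (pt_span hu0)).1.exists_ker
  have hex : ∀ x : V, f0 x = 1 → ∃ f : Module.Dual F V, LinearMap.ker f = B (F ∙ x) ∧ f u0 = -1 := by
    intro x hx
    have hx0 : x ≠ 0 := by rintro rfl; simp at hx
    have hn : u0 ∉ B (F ∙ x) := by
      intro h
      have := symB x u0 hx0 hu0 h
      rw [hk0, LinearMap.mem_ker, hx] at this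
      exact one_ne_zero this
    obtain ⟨g, hg, hk⟩ := (hB _ (pt_span hx0)).1.exists_ker
    have hgu : g u0 ≠ 0 := by
      intro h; apply hn; rw [hk, LinearMap.mem_ker]; exact h
    refine ⟨(-(g u0)⁻¹) • g, ?_, ?_⟩
    · rw [LinearMap.ker_smul _ _ (neg_ne_zero.2 (inv_ne_zero hgu)), hk]
    · simp [hgu]
  choose! f hfk hfu using hex
  have memf : ∀ x, f0 x = 1 → ∀ t, t ∈ B (F ∙ x) ↔ f x t = 0 := by
    intro x hx t
    rw [← hfk x hx, LinearMap.mem_ker]
  have nz : ∀ x, f0 x = 1 → x ≠ 0 := by
    rintro x hx rfl; simp at hx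
  -- the kernel of differences
  have kerd : ∀ x y, f0 x = 1 → f0 y = 1 → x ≠ y → ∀ t, t ∈ B (F ∙ (x - y)) ↔ f x t = f y t := by
    intro x y hx hy hxy t
    have hw : x - y ≠ 0 := sub_ne_zero.2 hxy
    have hu : u0 ∈ B (F ∙ (x - y)) := by
      apply symB u0 _ hu0 hw
      rw [hk0, LinearMap.mem_ker, map_sub, hx, hy, sub_self]
    have ht' : f x (t + f x t • u0) = 0 := by
      rw [map_add, map_smul, hfu x hx]; simp
    constructor
    · intro ht
      have h1 : t + f x t • u0 ∈ B (F ∙ (x - y)) := add_mem ht (smul_mem _ _ hu)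
      have h2 : t + f x t • u0 ∈ B (F ∙ x) := (memf x hx _).2 ht'
      have h3 := key x (x - y) y (nz x hx) hw (nz y hy) ⟨1, -1, by module⟩ _ h2 h1
      rw [memf y hy, map_add, map_smul, hfu y hy] at h3
      simp only [smul_eq_mul, mul_neg, mul_one] at h3
      exact (sub_eq_zero.1 (by rw [sub_eq_add_neg]; exact h3)).symm
    · intro ht
      have h2 : t + f x t • u0 ∈ B (F ∙ x) := (memf x hx _).2 ht'
      have h3 : t + f x t • u0 ∈ B (F ∙ y) := by
        rw [memf y hy, map_add, map_smul, hfu y hy, ht]; simp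
      have h4 := key x y (x - y) (nz x hx) (nz y hy) hw ⟨1, -1, by module⟩ _ h2 h3
      have h5 : t = (t + f x t • u0) - f x t • u0 := by abel
      rw [h5]
      exact sub_mem h4 (smul_mem _ _ hu)
  have selff : ∀ x, f0 x = 1 → f x x = 0 := fun x hx => (memf x hx x).1 (selfB x (nz x hx))
  have anti : ∀ x y, f0 x = 1 → f0 y = 1 → f x y = - f y x := by
    intro x y hx hy
    by_cases hxy : x = y
    · subst hxy; rw [selff x hx, neg_zero]
    · have h := (kerd x y hx hy hxy (x - y)).1 (selfB _ (sub_ne_zero.2 hxy))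
      rw [map_sub, map_sub, selff x hx, selff y hy, zero_sub, sub_zero] at h
      rw [← h, neg_neg]
  -- a point of the affine hyperplane
  obtain ⟨a, ha⟩ : ∃ a, f0 a = 1 := LinearMap.surjective hf0 1
  have hspan : span F {x : V | f0 x = 1} = ⊤ := by
    rw [eq_top_iff]
    intro v _
    by_cases hv : f0 v = 0
    · have h1 : v = (a + v) - a := by abel
      rw [h1]
      refine sub_mem (subset_span ?_) (subset_span ha)
      change f0 (a + v) = 1
      rw [map_add, ha, hv, add_zero]
    · have h1 : v = f0 v • ((f0 v)⁻¹ • v) := by rw [smul_smul, mul_inv_cancel₀ hv, one_smul]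
      rw [h1]
      refine smul_mem _ _ (subset_span ?_)
      change f0 ((f0 v)⁻¹ • v) = 1
      rw [map_smul, smul_eq_mul, inv_mul_cancel₀ hv]
  let b := Module.Basis.ofSpan hspan.ge
  have hbA : ∀ i, f0 (b i) = 1 := by
    intro i
    exact Module.Basis.ofSpan_subset hspan.ge ⟨i, rfl⟩
  let w : V →ₗ[F] V →ₗ[F] F := b.constr F (fun i => f (b i))
  have hwb : ∀ i, w (b i) = f (b i) := fun i => b.constr_basis F _ i
  have h1 : ∀ y, f0 y = 1 → ∀ v, w v y = - f y v := by
    intro y hy v
    have : (w.flip y) = - f y := by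
      apply b.ext
      intro i
      rw [LinearMap.flip_apply, hwb, LinearMap.neg_apply]
      exact anti _ _ (hbA i) hy
    have h2 := congrArg (fun l : V →ₗ[F] F => l v) this
    simpa using h2
  have hwf : ∀ x, f0 x = 1 → w x = f x := by
    intro x hx
    apply LinearMap.ext_on hspan
    intro y hy
    rw [h1 y hy x, anti x y hx hy]
  refine ⟨w, ?_, ?_⟩
  · intro v
    by_cases hv : f0 v = 0
    · have e : v = (a + v) - a := by abel
      have hav : f0 (a + v) = 1 := by rw [map_add, ha, hv, add_zero]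
      rw [e]
      generalize a + v = x at hav
      have e1 : w (x - a) = f x - f a := by rw [map_sub, hwf x hav, hwf a ha]
      rw [e1, LinearMap.sub_apply, map_sub, map_sub, selff x hav, selff a ha, anti x a hav ha]
      ring
    · have e : v = f0 v • ((f0 v)⁻¹ • v) := by rw [smul_smul, mul_inv_cancel₀ hv, one_smul]
      have hx : f0 ((f0 v)⁻¹ • v) = 1 := by rw [map_smul, smul_eq_mul, inv_mul_cancel₀ hv]
      generalize (f0 v)⁻¹ • v = x at e hx
      generalize f0 v = c at e hv
      subst e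
      have e1 : w (c • x) = c • f x := by rw [map_smul, hwf x hx]
      rw [e1, LinearMap.smul_apply, map_smul, selff x hx]
      simp
  · intro v hv0
    by_cases hv : f0 v = 0
    · have e : v = (a + v) - a := by abel
      have hav : f0 (a + v) = 1 := by rw [map_add, ha, hv, add_zero]
      have hne : a + v ≠ a := by
        intro h; apply hv0; simpa using h
      generalize a + v = x at hav e hne
      subst e
      ext t
      rw [kerd x a hav ha hne, LinearMap.mem_ker, map_sub, LinearMap.sub_apply, hwf x hav, hwf a ha,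
        sub_eq_zero]
    · have e : v = f0 v • ((f0 v)⁻¹ • v) := by rw [smul_smul, mul_inv_cancel₀ hv, one_smul]
      have hx : f0 ((f0 v)⁻¹ • v) = 1 := by rw [map_smul, smul_eq_mul, inv_mul_cancel₀ hv]
      generalize (f0 v)⁻¹ • v = x at e hx
      generalize f0 v = c at e hv
      subst e
      rw [map_smul, LinearMap.ker_smul _ _ hv, hwf x hx, hfk x hx]
      congr 1
      exact (span_singleton_smul_eq (IsUnit.mk0 c hv) x).symm

end Pool.Agent.Helper63.GL4NPOL
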